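import Pool.Agent.Helper6.FlatActs.Proof

/-!
# Every act over a monoid has a flat cover

The definitions (tensor product, flat act, flat cover) are in `Pool/Agent/Helper6/FlatActs/Defs.lean`.
The proof, with an outline, is in `Pool/Agent/Helper6/FlatActs/Proof.lean`.
-/

set_option autoImplicit false

universe u

open MulOpposite

namespace Pool.Agent.Results.MP_6a819e_al.FlatCovers

open Pool.Agent.Helper6.FlatActs

/-- **The flat cover conjecture holds for acts over an arbitrary monoid**: every right act over
every monoid has a flat cover. -/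
theorem result (S : Type u) [Monoid S] (A : Type u) [MulAction Sᵐᵒᵖ A] [Nonempty A] :
    ∃ (F : Type u) (_ : MulAction Sᵐᵒᵖ F) (g : F →[Sᵐᵒᵖ] A), IsFlatCover S g := by
  obtain ⟨T, hT, hbij⟩ := exists_cover S A
  refine ⟨T.X, T.inst, T.π, ?_, T.flat, ?_, ?_⟩
  · obtain ⟨a⟩ := ‹Nonempty A›
    let P : FAct S A :=
      { X := S
        π := ⟨fun s => op s • a, fun s x => by
          change op (x * s.unop) • a = s • op x • a
          rw [op_mul, mul_smul, op_unop]⟩
        flat := flat_self }
    obtain ⟨f⟩ := hT P
    exact ⟨f (1 : S)⟩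
  · intro F' _ _ h hF'
    obtain ⟨f⟩ := hT { X := F', π := h, flat := hF' }
    refine ⟨f.f, ?_⟩
    ext x
    exact f.hov x
  · intro f hf
    let w : FHom T T := ⟨f, fun x => congrArg (fun k : T.X →[Sᵐᵒᵖ] A => k x) hf⟩
    have hb : Function.Bijective f := hbij w
    let e : T.X ≃ T.X := Equiv.ofBijective f hb
    have h1 : ∀ x, f (e.symm x) = x := fun x => e.apply_symm_apply x
    have h2 : ∀ x, e.symm (f x) = x := fun x => e.symm_apply_apply x
    refine ⟨⟨e.symm, fun s x => ?_⟩, ?_, ?_⟩
    · apply hb.injective
      rw [h1]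
      change s • x = f (s • e.symm x)
      rw [map_smul, h1]
    · ext x
      exact h1 x
    · ext x
      exact h2 x

end Pool.Agent.Results.MP_6a819e_al.FlatCovers
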